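import Mathlib

/-!
# W2, W3 (proofs 252, section 3): bimultiplicative and trimultiplicative maps invariant under an
automorphism with `z^5 + z^2 + 1 = 0` on elementary abelian 2-groups are trivial.
-/

set_option autoImplicit false

namespace Pool.Agent.H5.FS

universe u

theorem w3_core {A : Type*} [AddCommGroup A] (B : ℕ → ℕ → A) (h2 : ∀ i j, B i j + B i j = 0)
    (h5 : ∀ i j, B (i + 5) j = B (i + 2) j + B i j)
    (h5' : ∀ i j, B i (j + 5) = B i (j + 2) + B i j)
    (hE : ∀ i j, B (i + 3) (j + 3) + B (i + 2) (j + 2) + B (i + 2) j + B i (j + 2) = 0) :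
    B 0 0 = 0 := by
  linear_combination (norm := (norm_num only [Nat.reduceAdd]; abel))
      hE 0 0 + hE 0 4 + hE 1 1 + hE 1 2 + hE 1 3 + hE 2 1 + hE 2 2 + hE 2 3 + hE 2 4 + hE 3 1 +
      hE 3 2 + hE 3 4 + hE 4 0 + hE 4 2 + hE 4 3 - 1 • h5 2 6 - 1 • h5 2 5 - 1 • h5 2 3 - 1 • h5
      1 7 - 2 • h5 1 5 - 2 • h5 1 4 - 1 • h5 1 3 - 2 • h5 1 2 - 1 • h5 1 0 - 1 • h5 0 7 - 2 • h5
      0 6 - 1 • h5 0 5 - 3 • h5 0 4 - 1 • h5 0 3 - 1 • h5 0 2 - 1 • h5 0 1 - 3 • h5' 4 1 - 4 •
      h5' 4 0 - 2 • h5' 3 2 - 1 • h5' 3 1 - 3 • h5' 3 0 - 1 • h5' 2 2 - 5 • h5' 2 1 - 3 • h5' 2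
      0 - 1 • h5' 1 2 - 3 • h5' 1 0 - 1 • h5' 0 2 - 3 • h5' 0 1 - 1 • h5' 0 0 - 2 • h2 0 1 - 2 •
      h2 0 2 - 2 • h2 0 3 - 2 • h2 0 4 - 2 • h2 1 0 - 3 • h2 1 2 - 1 • h2 1 3 - 2 • h2 1 4 - 2 •
      h2 2 0 - 3 • h2 2 1 - 3 • h2 2 2 - 4 • h2 2 3 - 3 • h2 2 4 - 2 • h2 3 0 - 1 • h2 3 1 - 4 •
      h2 3 2 - 3 • h2 3 3 - 3 • h2 3 4 - 2 • h2 4 0 - 2 • h2 4 1 - 3 • h2 4 2 - 3 • h2 4 3 - 2 •
      h2 4 4

section

variable {M N G : Type*} [Group M] [Group N] [Group G] (k : M → N → G)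

/-- the values of a bimultiplicative map commute -/
theorem bimul_comm (h1 : ∀ m m' n, k (m * m') n = k m n * k m' n)
    (h2 : ∀ m n n', k m (n * n') = k m n * k m n') (m m' : M) (n n' : N) :
    k m n * k m' n' = k m' n' * k m n := by
  have e1 : k (m' * m) (n * n') = k m' n * k m' n' * (k m n * k m n') := by
    rw [h1, h2, h2]
  have e2 : k (m' * m) (n * n') = k m' n * k m n * (k m' n' * k m n') := by
    rw [h2, h1, h1]
  have e3 : k m' n * k m' n' * (k m n * k m n') = k m' n * k m n * (k m' n' * k m n') :=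
    e1.symm.trans e2
  have e4 : k m' n * (k m' n' * k m n) * k m n' = k m' n * (k m n * k m' n') * k m n' := by
    simpa only [mul_assoc] using e3
  exact (mul_left_cancel (mul_right_cancel e4)).symm

theorem bimul_one_left (h1 : ∀ m m' n, k (m * m') n = k m n * k m' n) (n : N) : k 1 n = 1 := by
  have := h1 1 1 n
  rw [one_mul] at this
  exact (mul_eq_left.mp this.symm)

theorem bimul_sq (h1 : ∀ m m' n, k (m * m') n = k m n * k m' n) (hM : ∀ m : M, m * m = 1)
    (m : M) (n : N) : k m n * k m n = 1 := by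
  rw [← h1, hM, bimul_one_left k h1]

end

theorem exists_add {M N : Type*} {G : Type u} [Group M] [Group N] [Group G] (k : M → N → G)
    (h1 : ∀ m m' n, k (m * m') n = k m n * k m' n)
    (h2 : ∀ m n n', k m (n * n') = k m n * k m n') :
    ∃ (A : Type u) (_ : AddCommGroup A) (κ : M → N → A),
      (∀ m m' n, κ (m * m') n = κ m n + κ m' n) ∧ (∀ m n n', κ m (n * n') = κ m n + κ m n') ∧
      (∀ m n, κ m n = 0 → k m n = 1) ∧
      (∀ m n m' n', k m n = k m' n' → κ m n = κ m' n') ∧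
      (∀ m n m1 n1 m2 n2, k m n = k m1 n1 * k m2 n2 → κ m n = κ m1 n1 + κ m2 n2) := by
  let S : Set G := Set.range (fun p : M × N => k p.1 p.2)
  have hS : ∀ x ∈ S, ∀ y ∈ S, x * y = y * x := by
    rintro _ ⟨⟨m, n⟩, rfl⟩ _ ⟨⟨m', n'⟩, rfl⟩
    exact bimul_comm k h1 h2 m m' n n'
  letI : CommGroup (Subgroup.closure S) := Subgroup.closureCommGroupOfComm hS
  have hmem : ∀ m n, k m n ∈ Subgroup.closure S := fun m n =>
    Subgroup.subset_closure ⟨(m, n), rfl⟩
  refine ⟨Additive (Subgroup.closure S), inferInstance,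
    fun m n => Additive.ofMul ⟨k m n, hmem m n⟩, fun m m' n => ?_, fun m n n' => ?_,
    fun m n h => ?_, fun m n m' n' h => ?_, fun m n m1 n1 m2 n2 h => ?_⟩
  · apply Additive.toMul.injective
    apply Subtype.ext
    exact h1 m m' n
  · apply Additive.toMul.injective
    apply Subtype.ext
    exact h2 m n n'
  · have := congrArg (fun x => ((Additive.toMul x : Subgroup.closure S) : G)) h
    exact this
  · apply Additive.toMul.injective
    apply Subtype.ext
    exact h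
  · apply Additive.toMul.injective
    apply Subtype.ext
    exact h

/-- W2 -/
theorem W2 {M N G : Type*} [Group M] [Group N] [Group G] (zM : M → M) (zN : N → N)
    (hM : ∀ m : M, m * m = 1)
    (hM5 : ∀ m, zM (zM (zM (zM (zM m)))) = zM (zM m) * m)
    (hN5 : ∀ n, zN (zN (zN (zN (zN n)))) = zN (zN n) * n)
    (k : M → N → G) (h1 : ∀ m m' n, k (m * m') n = k m n * k m' n)
    (h2 : ∀ m n n', k m (n * n') = k m n * k m n')
    (hinv : ∀ m n, k (zM m) (zN n) = k m n) (m : M) (n : N) : k m n = 1 := by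
  obtain ⟨A, _, κ, a1, a2, a3, a4, _⟩ := exists_add k h1 h2
  apply a3
  have sq : ∀ m n, κ m n + κ m n = 0 := by
    intro m n
    rw [← a1, hM]
    have := a1 1 1 n
    rw [one_mul] at this
    exact left_eq_add.mp this
  have inv : ∀ m n, κ (zM m) (zN n) = κ m n := fun m n => a4 _ _ _ _ (hinv m n)
  have inv5 : ∀ m n, κ (zM (zM (zM (zM (zM m))))) (zN (zN (zN (zN (zN n))))) = κ m n := by
    intro m n
    rw [inv, inv, inv, inv, inv]
  -- `k(z²m,n) + k(m,z²n) + k(m,n) = 0`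
  have e1 : ∀ m n, κ (zM (zM m)) n + κ m (zN (zN n)) + κ m n = 0 := by
    intro m n
    have e := inv5 m n
    rw [hM5, hN5, a1, a2, a2, inv, inv] at e
    linear_combination (norm := abel) e
  -- `k(z⁴m · z²m · m, n) = 0`
  have e2 : ∀ m n, κ (zM (zM (zM (zM m)))) n + κ (zM (zM m)) n + κ m n = 0 := by
    intro m n
    have e := e1 (zM (zM m)) n
    rw [inv, inv] at e
    linear_combination (norm := abel) e
  -- indices
  have hr : ∀ m n, κ (zM (zM (zM (zM (zM m))))) n = κ (zM (zM m)) n + κ m n := by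
    intro m n
    rw [hM5, a1]
  let g : ℕ → A := fun i => κ (zM^[i] m) n
  have g5 : ∀ i, g (i + 5) = g (i + 2) + g i := by
    intro i
    have := hr (zM^[i] m) n
    simpa only [g, Function.iterate_succ', Function.comp_apply] using this
  have g4 : ∀ i, g (i + 4) + g (i + 2) + g i = 0 := by
    intro i
    have := e2 (zM^[i] m) n
    simpa only [g, Function.iterate_succ', Function.comp_apply] using this
  have g2 : ∀ i, g i + g i = 0 := fun i => sq _ _
  change g 0 = 0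
  linear_combination (norm := (norm_num only [Nat.reduceAdd]; abel)) g4 4 + g4 6 - g5 5 - g5 2 -
    g5 0 - g2 4 - g2 6 - g2 8 - g2 2

/-- W3 -/
theorem W3 {M N L : Type*} {G : Type*} [Group M] [Group N] [Group L] [Group G]
    (zM : M → M) (zN : N → N) (zL : L → L) (hM : ∀ m : M, m * m = 1)
    (hM5 : ∀ m, zM (zM (zM (zM (zM m)))) = zM (zM m) * m)
    (hN5 : ∀ n, zN (zN (zN (zN (zN n)))) = zN (zN n) * n)
    (hL5 : ∀ l, zL (zL (zL (zL (zL l)))) = zL (zL l) * l)
    (k : M → N → L → G) (h1 : ∀ m m' n l, k (m * m') n l = k m n l * k m' n l)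
    (h2 : ∀ m n n' l, k m (n * n') l = k m n l * k m n' l)
    (h3 : ∀ m n l l', k m n (l * l') = k m n l * k m n l')
    (hinv : ∀ m n l, k (zM m) (zN n) (zL l) = k m n l) (m : M) (n : N) (l : L) : k m n l = 1 := by
  have hinv5 : ∀ m n, k (zM (zM (zM (zM (zM m))))) (zN (zN (zN (zN (zN n)))))
      (zL (zL (zL (zL (zL l))))) = k m n l := by
    intro m n
    rw [hinv, hinv, hinv, hinv, hinv]
  have hE : ∀ m n, k m n l = k (zM (zM (zM m))) (zN (zN (zN n))) l *
      k (zM (zM (zM (zM (zM m))))) (zN (zN (zN (zN (zN n))))) l := by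
    intro m n
    rw [← hinv5 m n, hL5, h3, hinv, hinv]
  obtain ⟨A, _, κ, a1, a2, a3, a4, a5⟩ := exists_add (fun m n => k m n l)
    (fun m m' n => h1 m m' n l) (fun m n n' => h2 m n n' l)
  apply a3
  have sq : ∀ m n, κ m n + κ m n = 0 := by
    intro m n
    rw [← a1, hM]
    have := a1 1 1 n
    rw [one_mul] at this
    exact left_eq_add.mp this
  have hκ : ∀ m n, κ m n = κ (zM (zM (zM m))) (zN (zN (zN n))) +
      κ (zM (zM (zM (zM (zM m))))) (zN (zN (zN (zN (zN n))))) := fun m n =>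
    a5 _ _ _ _ _ _ (hE m n)
  have hκ2 : ∀ m n, κ (zM (zM (zM m))) (zN (zN (zN n))) + κ (zM (zM m)) (zN (zN n)) +
      κ (zM (zM m)) n + κ m (zN (zN n)) = 0 := by
    intro m n
    have e := hκ m n
    rw [hM5, hN5, a1, a2, a2] at e
    linear_combination (norm := abel) e.symm
  let B : ℕ → ℕ → A := fun i j => κ (zM^[i] m) (zN^[j] n)
  have b2 : ∀ i j, B i j + B i j = 0 := fun i j => sq _ _
  have b5 : ∀ i j, B (i + 5) j = B (i + 2) j + B i j := by
    intro i j
    simp only [B, Function.iterate_succ', Function.comp_apply]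
    rw [hM5, a1]
  have b5' : ∀ i j, B i (j + 5) = B i (j + 2) + B i j := by
    intro i j
    simp only [B, Function.iterate_succ', Function.comp_apply]
    rw [hN5, a2]
  have bE : ∀ i j, B (i + 3) (j + 3) + B (i + 2) (j + 2) + B (i + 2) j + B i (j + 2) = 0 := by
    intro i j
    have := hκ2 (zM^[i] m) (zN^[j] n)
    simpa only [B, Function.iterate_succ', Function.comp_apply] using this
  exact w3_core B b2 b5 b5' bE

end Pool.Agent.H5.FS
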